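import Pool.Agent.Helper45.CF.GoalsC
import Pool.Agent.Helper45.CF.Asm

/-!
# Project CF stage 2 (MP_d97caa_an), packet ZAQ: the pull-back algebra and the field have the same
vanishing theories
-/

open scoped ComplexOrder ZeroAtInfty Topology ComplexConjugate NNReal
open TopologicalSpace Filter

namespace Pool.Agent.Helper13.CF2

open Pool.Agent.Helper34.CAR Pool.Agent.Helper39.CR Pool.Agent.Helper45.CF

noncomputable section

/-- two of three, the ideal -/
theorem zero_ideal (T : Theory) {J A Q : Type} [NonUnitalCStarAlgebra J]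
    [NonUnitalCStarAlgebra A] [NonUnitalCStarAlgebra Q] [SeparableSpace J] [SeparableSpace A]
    [SeparableSpace Q] (u : J →⋆ₙₐ[ℂ] A) (q : A →⋆ₙₐ[ℂ] Q) (hu : Function.Injective u)
    (hq : Function.Surjective q) (hk : ∀ a, q a = 0 ↔ a ∈ Set.range u) (hA : T.Zero A)
    (hQ : T.Zero Q) : T.Zero J := by
  intro i x
  obtain ⟨d, -, h2, -⟩ := T.exact i J A Q u q hu hq hk
  obtain ⟨y, hy⟩ := (h2 x).1 (hQ (i + 1) (d x))
  rw [← hy, hA i y, map_zero]

/-- The functions that vanish on the range of `e`. -/
def van {X Q : Type} (M : Type) [TopologicalSpace X] [CompactSpace X] [TopologicalSpace Q]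
    [CompactSpace Q] [NonUnitalCStarAlgebra M] (e : C(X, Q)) : NonUnitalStarSubalgebra ℂ C(Q, M)
    where
  carrier := {f | ∀ x, f (e x) = 0}
  add_mem' {a b} ha hb x := by
    show a (e x) + b (e x) = 0
    rw [ha x, hb x, add_zero]
  zero_mem' _ := rfl
  mul_mem' {a b} ha hb x := by
    show a (e x) * b (e x) = 0
    rw [ha x, zero_mul]
  smul_mem' c a ha x := by
    show c • a (e x) = 0
    rw [ha x, smul_zero]
  star_mem' {a} ha x := by
    show star (a (e x)) = 0
    rw [ha x, star_zero]

instance van_closed {X Q M : Type} [TopologicalSpace X] [CompactSpace X] [TopologicalSpace Q]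
    [CompactSpace Q] [NonUnitalCStarAlgebra M] (e : C(X, Q)) :
    IsClosed (van M e : Set C(Q, M)) := by
  have h : (van M e : Set C(Q, M)) = ⋂ x, {f : C(Q, M) | f (e x) = 0} := by
    ext f
    simp only [Set.mem_iInter, Set.mem_ofPred_eq]
    rfl
  rw [h]
  exact isClosed_iInter fun x => isClosed_eq (continuous_eval_const (e x)) continuous_const

/-- The inclusion. -/
def vinc {X Q : Type} (M : Type) [TopologicalSpace X] [CompactSpace X] [TopologicalSpace Q]
    [CompactSpace Q] [NonUnitalCStarAlgebra M] (e : C(X, Q)) : van M e →⋆ₙₐ[ℂ] C(Q, M) where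
  toFun f := f.1
  map_smul' _ _ := rfl
  map_zero' := rfl
  map_add' _ _ := rfl
  map_mul' _ _ := rfl
  map_star' _ := rfl

/-- **Packet ZAQ** -/
theorem t (hTIE : S_TIE) : S_ZAQ := by
  intro T X Q M H A _ _ _ _ _ _ _ _ _ _ _ _ e j i r he hj hi hr hA hQM hXM
  have sJ : SeparableSpace (van M e) := inferInstance
  -- the ideal
  have hJ : T.Zero (van M e) := by
    refine zero_ideal T (vinc M e) (pull M e) (fun a b h => Subtype.ext h) (hTIE X Q M e he) ?_
      hQM hXM
    intro a
    constructor
    · intro h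
      exact ⟨⟨a, fun x => DFunLike.congr_fun h x⟩, rfl⟩
    · rintro ⟨f, rfl⟩
      ext x
      exact f.2 x
  -- the map of the ideal
  have hex : ∀ f : van M e, ∃ a, i a = f.1 := fun f =>
    hA f.1 ⟨0, fun x => by rw [map_zero]; exact (f.2 x).symm⟩
  choose g hg using hex
  let u : van M e →⋆ₙₐ[ℂ] A :=
    { toFun := g
      map_smul' := fun c a => hi (by
        rw [hg]
        show c • a.1 = i (c • g a)
        rw [map_smul, hg])
      map_zero' := hi (by rw [hg, map_zero]; rfl)
      map_add' := fun a b => hi (by rw [hg, map_add, hg, hg]; rfl)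
      map_mul' := fun a b => hi (by rw [hg, map_mul, hg, hg]; rfl)
      map_star' := fun a => hi (by
        rw [hg]
        show star a.1 = i (star (g a))
        rw [map_star, hg]) }
  have hu : Function.Injective u := by
    intro a b h
    refine Subtype.ext ?_
    rw [← hg a, ← hg b]
    exact congrArg i h
  have hq : Function.Surjective (r : A →⋆ₙₐ[ℂ] H) := by
    intro b
    obtain ⟨f, hf⟩ := hTIE X Q M e he (j b)
    have hf' : ∀ x, f (e x) = j b x := fun x => DFunLike.congr_fun hf x
    obtain ⟨a, ha⟩ := hA f ⟨b, fun x => (hf' x).symm⟩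
    refine ⟨a, hj ?_⟩
    ext x
    show j (r a) x = j b x
    rw [hr, ha, hf']
  have hk : ∀ a, (r : A →⋆ₙₐ[ℂ] H) a = 0 ↔ a ∈ Set.range u := by
    intro a
    constructor
    · intro h
      have h' : r a = 0 := h
      refine ⟨⟨i a, fun x => ?_⟩, hi ?_⟩
      · rw [← hr, h', map_zero]
        rfl
      · exact hg _
    · rintro ⟨f, rfl⟩
      show r (g f) = 0
      apply hj
      ext x
      rw [hr, hg, map_zero]
      exact f.2 x
  have hb : ∀ k, Function.Bijective (T.map k (r : A →⋆ₙₐ[ℂ] H)) := fun k =>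
    bij_of_ext T k u (r : A →⋆ₙₐ[ℂ] H) hu hq hk hJ
  constructor
  · intro h k x
    exact (hb k).1 (by rw [h k (T.map k (r : A →⋆ₙₐ[ℂ] H) x), map_zero])
  · intro h k x
    obtain ⟨y, rfl⟩ := (hb k).2 x
    rw [h k y, map_zero]

end

end Pool.Agent.Helper13.CF2
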